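import Pool.Agent.Lib.MP_2f3cff_al.Main

/-!
Order embeddings between intervals of Boolean strong partial clones: the full positive answer.
-/

set_option autoImplicit false

open Pool.Agent.Lib.MP_2f3cff_al

/-- For every pair of Boolean clones `D ⊆ C` there is an order embedding of `I_Str(C)` into
`I_Str(D)`. -/
theorem Pool.Agent.Results.MP_2f3cff_al.Embedding.result (C D : Fam)
    (hC : IsBooleanClone C) (hD : IsBooleanClone D) (hDC : D ≤ C) :
    Nonempty (IStr C ↪o IStr D) :=
  main hC hD hDC
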